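import Mathlib
import Pool.Agent.X221.PS.Fin

/-!
# MP_b5e7a1_al, Q1: yes, some category with binary coproducts detects the Parry-Sullivan number

There is a (locally small) category `C` with binary coproducts such that for all irreducible,
non-trivial finite directed graphs `G` and `H`: if the categories of diagrams of shape `G` and of
shape `H` in `C` with the coproduct condition are equivalent, then `det (I - A_G) = det (I - A_H)`.

The definitions are in `Pool/Agent/X221/PS/Cat.lean` (`DG`, `Diag`, morphisms of diagrams) and
`Pool/Agent/X221/PS/Gr.lean` (`Irreducible`, `IsCycle`, `adjMatrix`, `parrySullivan`).

The category `C` is `Ob`: sets with an automorphism `τ` and an additive group of admissible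
integer valued functions containing the constants, closed under `τ` and its inverse, and
containing a function `q` with `q (τ x) = q x + 1` whenever `τ x ≠ x`; the morphisms are the
equivariant maps which pull back admissible functions to admissible functions. For a graph without
sources the category of diagrams consists of spaces over the path space with a shift. The powers
of `τ` are exactly the natural endomorphisms of the identity functor, the free orbits over the
tail classes of paths are characterised categorically, and the images of the torsors given by edge
weights produce from an equivalence a locally constant cocycle on the path space of `G` which
transports the isotropy groups of the tail equivalence relation of `G` to those of `H`. Counting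
periodic orbits with weights then gives an equality of the dynamical zeta functions, as an
identity of polynomials `det (1 - M_G(X)) = det (1 - M_H(X))`, and the claim is its value
at `X = 1`.
-/

namespace Pool.Agent.Results.MP_b5e7a1_al.ParrySullivanCategory

open CategoryTheory Limits Pool.Agent.X221.PS

/-- There is a category with binary coproducts such that equivalence of the categories of diagrams
with the coproduct condition of two irreducible, non-trivial finite directed graphs implies
equality of their Parry-Sullivan numbers. -/
theorem result :
    ∃ (C : Type 1) (_ : Category.{0} C), HasBinaryCoproducts C ∧
      ∀ (G H : DG) [Nonempty G.V] [Nonempty H.V] [Fintype G.V] [Fintype H.V]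
        [DecidableEq G.V] [DecidableEq H.V] [Finite G.E] [Finite H.E],
        G.Irreducible → ¬ G.IsCycle → H.Irreducible → ¬ H.IsCycle →
        Nonempty (Diag G C ≌ Diag H C) → G.parrySullivan = H.parrySullivan :=
  ⟨Ob, inferInstance, inferInstance, fun _ _ => fun hG hcG hH hcH ⟨e⟩ => main hG hH hcG hcH e⟩

end Pool.Agent.Results.MP_b5e7a1_al.ParrySullivanCategory
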